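import Pool.Agent.N139.MS.Stm

/-! # Project MS (helper139), piece GAP: the almost invariant vectors (helper306) -/

set_option autoImplicit false

namespace Pool.Agent.N306.MS

open Pool.Agent.W661.RC (HasT PtbP PtcP Smo Mk)
open Pool.Agent.N139.MS (E S_GAP)

noncomputable section

section basics

variable {k : ℕ} {H : Type} [NormedAddCommGroup H] [InnerProductSpace ℂ H] [CompleteSpace H]

/-- the Laplace operator -/
def La (ρ : FreeGroup (Fin k) →* unitary (H →L[ℂ] H)) : H →L[ℂ] H :=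
  ∑ s, ((2 : ℂ) • (1 : H →L[ℂ] H) - ((ρ (FreeGroup.of s) : H →L[ℂ] H) +
    (ρ (FreeGroup.of s)⁻¹ : H →L[ℂ] H)))

lemma La_apply (ρ : FreeGroup (Fin k) →* unitary (H →L[ℂ] H)) (v : H) :
    La ρ v = ∑ s, ((2 : ℂ) • v - ((ρ (FreeGroup.of s) : H →L[ℂ] H) v +
      (ρ (FreeGroup.of s)⁻¹ : H →L[ℂ] H) v)) := by
  unfold La
  rw [sum_apply]
  rfl

lemma inv_inner (ρ : FreeGroup (Fin k) →* unitary (H →L[ℂ] H)) (g : FreeGroup (Fin k)) (x y : H) :
    (inner ℂ ((ρ g⁻¹ : H →L[ℂ] H) x) (y) : ℂ) = (inner ℂ (x) ((ρ g : H →L[ℂ] H) y) : ℂ) := by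
  have h1 : (ρ g⁻¹ : H →L[ℂ] H) = ContinuousLinearMap.adjoint (ρ g : H →L[ℂ] H) := by
    rw [map_inv, ← Unitary.star_eq_inv, Unitary.coe_star, ContinuousLinearMap.star_eq_adjoint]
  rw [h1, ContinuousLinearMap.adjoint_inner_left]

lemma inv_inner' (ρ : FreeGroup (Fin k) →* unitary (H →L[ℂ] H)) (g : FreeGroup (Fin k)) (x y : H) :
    (inner ℂ ((ρ g : H →L[ℂ] H) x) (y) : ℂ) = (inner ℂ (x) ((ρ g⁻¹ : H →L[ℂ] H) y) : ℂ) := by
  have := inv_inner ρ g⁻¹ x y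
  rwa [inv_inv] at this

lemma norm_un (ρ : FreeGroup (Fin k) →* unitary (H →L[ℂ] H)) (g : FreeGroup (Fin k)) (x : H) :
    ‖(ρ g : H →L[ℂ] H) x‖ = ‖x‖ := by
  have h1 : ‖(ρ g : H →L[ℂ] H) x‖ ^ 2 = ‖x‖ ^ 2 := by
    have e1 : (inner ℂ ((ρ g : H →L[ℂ] H) x) ((ρ g : H →L[ℂ] H) x) : ℂ) = (inner ℂ (x) (x) : ℂ) := by
      rw [inv_inner' ρ g]
      congr 1
      have : (ρ g⁻¹ : H →L[ℂ] H) ((ρ g : H →L[ℂ] H) x) = ((ρ (g⁻¹ * g) : unitary (H →L[ℂ] H)) : H →L[ℂ] H) x := by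
        rw [map_mul]
        rfl
      rw [this, inv_mul_cancel, map_one]
      rfl
    rw [inner_self_eq_norm_sq_to_K, inner_self_eq_norm_sq_to_K] at e1
    exact_mod_cast e1
  exact (pow_left_inj₀ (norm_nonneg _) (norm_nonneg _) two_ne_zero).1 h1

lemma La_symm (ρ : FreeGroup (Fin k) →* unitary (H →L[ℂ] H)) :
    (La ρ : H →ₗ[ℂ] H).IsSymmetric := by
  intro x y
  show (inner ℂ (La ρ x) (y) : ℂ) = (inner ℂ (x) (La ρ y) : ℂ)
  rw [La_apply, La_apply, sum_inner, inner_sum]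
  refine Finset.sum_congr rfl fun s _ => ?_
  rw [inner_sub_left, inner_sub_right, inner_add_left, inner_add_right, inner_smul_left,
    inner_smul_right, inv_inner, inv_inner' ρ (FreeGroup.of s) x y, Complex.conj_ofNat]
  ring

lemma E_eq (ρ : FreeGroup (Fin k) →* unitary (H →L[ℂ] H)) (v : H) :
    E ρ v = ((inner ℂ (La ρ v) (v) : ℂ)).re := by
  unfold E
  rw [La_apply, sum_inner, Complex.re_sum]
  refine Finset.sum_congr rfl fun s _ => ?_
  have h1 := @norm_sub_sq ℂ H _ _ _ ((ρ (FreeGroup.of s) : H →L[ℂ] H) v) v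
  rw [h1, norm_un, inner_sub_left, inner_add_left, inner_smul_left, inv_inner,
    ← inner_conj_symm v ((ρ (FreeGroup.of s) : H →L[ℂ] H) v), Complex.conj_ofNat,
    inner_self_eq_norm_sq_to_K]
  simp only [Complex.sub_re, Complex.add_re, Complex.conj_re, RCLike.re_to_complex]
  have h2 : ((2 : ℂ) * ((‖v‖ : ℝ) : ℂ) ^ 2).re = 2 * ‖v‖ ^ 2 := by
    rw [← Complex.ofReal_pow, ← Complex.ofReal_ofNat, ← Complex.ofReal_mul, Complex.ofReal_re]
  have h3 : ((2 : ℂ) * (((‖v‖ : ℝ)) : ℂ) ^ 2).re = 2 * ‖v‖ ^ 2 := h2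
  erw [h3]
  ring

lemma E_nonneg (ρ : FreeGroup (Fin k) →* unitary (H →L[ℂ] H)) (v : H) : 0 ≤ E ρ v :=
  Finset.sum_nonneg fun _ _ => sq_nonneg _

lemma E_le (ρ : FreeGroup (Fin k) →* unitary (H →L[ℂ] H)) (v : H) : E ρ v ≤ 4 * k * ‖v‖ ^ 2 := by
  unfold E
  have h1 : ∀ s : Fin k, ‖(ρ (FreeGroup.of s) : H →L[ℂ] H) v - v‖ ^ 2 ≤ 4 * ‖v‖ ^ 2 := by
    intro s
    have h2 : ‖(ρ (FreeGroup.of s) : H →L[ℂ] H) v - v‖ ≤ 2 * ‖v‖ := by
      refine (norm_sub_le _ _).trans ?_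
      rw [norm_un]
      linarith
    calc _ ≤ (2 * ‖v‖) ^ 2 := pow_le_pow_left₀ (norm_nonneg _) h2 2
      _ = _ := by ring
  refine (Finset.sum_le_sum fun s _ => h1 s).trans (le_of_eq ?_)
  rw [Finset.sum_const, Finset.card_univ, Fintype.card_fin, nsmul_eq_mul]
  ring

lemma Mk_eq (ρ : FreeGroup (Fin k) →* unitary (H →L[ℂ] H)) (v : H) :
    Mk ρ v = v - (1 / (2 * (2 * k + 1)) : ℂ) • La ρ v := by
  have hk : (2 * (k : ℂ) + 1) ≠ 0 := by
    have : ((2 * k + 1 : ℕ) : ℂ) ≠ 0 := by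
      rw [Nat.cast_ne_zero]
      omega
    push_cast at this
    exact this
  rw [La_apply]
  unfold Mk
  simp only [add_apply, smul_apply,
    one_apply_eq_self, sum_apply, Finset.sum_sub_distrib,
    Finset.sum_const, Finset.card_univ, Fintype.card_fin]
  set W : H := ∑ s, ((ρ (FreeGroup.of s) : H →L[ℂ] H) v + (ρ (FreeGroup.of s)⁻¹ : H →L[ℂ] H) v)
  have e1 : (k : ℕ) • (2 : ℂ) • v = ((k : ℂ) * 2) • v := by
    rw [← Nat.cast_smul_eq_nsmul ℂ, smul_smul]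
  rw [e1, smul_sub, smul_smul, smul_add]
  have e2 : (1 / 2 : ℂ) • v + (1 / (2 * (2 * (k : ℂ) + 1))) • v =
      v - (1 / (2 * (2 * (k : ℂ) + 1)) * (k * 2)) • v := by
    rw [← add_smul]
    nth_rw 2 [← one_smul ℂ v]
    rw [← sub_smul]
    congr 1
    field_simp
    ring
  have e3 : (1 / 2 : ℂ) • v + ((1 / (2 * (2 * (k : ℂ) + 1))) • v + (1 / (2 * (2 * (k : ℂ) + 1))) • W) =
    ((1 / 2 : ℂ) • v + (1 / (2 * (2 * (k : ℂ) + 1))) • v) + (1 / (2 * (2 * (k : ℂ) + 1))) • W := by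
    abel
  rw [e3, e2]
  abel

lemma E_smul (ρ : FreeGroup (Fin k) →* unitary (H →L[ℂ] H)) (c : ℂ) (v : H) :
    E ρ (c • v) = ‖c‖ ^ 2 * E ρ v := by
  unfold E
  rw [Finset.mul_sum]
  refine Finset.sum_congr rfl fun s _ => ?_
  rw [map_smul, ← smul_sub, norm_smul, mul_pow]

/-- an eigenvector -/
lemma eig (ρ : FreeGroup (Fin k) →* unitary (H →L[ℂ] H)) (b : H) (hb : ‖b‖ = 1) (l : ℝ)
    (hl : La ρ b = (l : ℂ) • b) : E ρ b = l := by
  rw [E_eq, hl, inner_smul_left, inner_self_eq_norm_sq_to_K, hb, Complex.conj_ofReal]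
  simp

lemma eig_pow (ρ : FreeGroup (Fin k) →* unitary (H →L[ℂ] H)) (b : H) (l : ℝ)
    (hl : La ρ b = (l : ℂ) • b) (K : ℕ) :
    (Mk ρ ^ K) b = (((1 - 1 / (2 * (2 * k + 1)) * l) ^ K : ℝ) : ℂ) • b := by
  induction K with
  | zero => simp
  | succ K ih =>
    have e1 : (Mk ρ ^ (K + 1)) b = Mk ρ ((Mk ρ ^ K) b) := by
      rw [pow_succ']
      rfl
    rw [e1, ih, map_smul, Mk_eq, hl]
    have e2 : b - (1 / (2 * (2 * (k : ℂ) + 1))) • (l : ℂ) • b =
        (((1 - 1 / (2 * (2 * k + 1)) * l) : ℝ) : ℂ) • b := by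
      nth_rw 1 [← one_smul ℂ b]
      rw [smul_smul, ← sub_smul]
      congr 1
      push_cast
      ring
    rw [e2, smul_smul]
    congr 1
    push_cast
    ring

/-- eigenvalues below the gap are small -/
lemma small (ρ : FreeGroup (Fin k) →* unitary (H →L[ℂ] H)) (b : H) (hb : ‖b‖ = 1) (l : ℝ)
    (hl : La ρ b = (l : ℂ) • b) (C : ℝ) (hC : 1 ≤ C) (hlc : l < 1 / (8 * C)) (K : ℕ) (e : ℝ)
    (he : e ≤ 1 / 16) (hS : Smo ρ K C (2 * e) b) : l ≤ 8 * e := by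
  have hE := eig ρ b hb l hl
  have hl0 : 0 ≤ l := by rw [← hE]; exact E_nonneg ρ b
  have hl1 : l ≤ 4 * k := by
    rw [← hE]
    refine (E_le ρ b).trans (le_of_eq ?_)
    rw [hb]
    ring
  set μ : ℝ := 1 - 1 / (2 * (2 * k + 1)) * l with hμ
  have hk0 : (0 : ℝ) < 2 * (2 * k + 1) := by positivity
  have hμ0 : 0 ≤ μ := by
    have : 1 / (2 * (2 * (k : ℝ) + 1)) * l ≤ 1 := by
      rw [one_div, inv_mul_le_iff₀ hk0]
      linarith
    linarith
  have hμ1 : μ ≤ 1 := by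
    have : 0 ≤ 1 / (2 * (2 * (k : ℝ) + 1)) * l := by positivity
    linarith
  have hμK0 : 0 ≤ μ ^ K := pow_nonneg hμ0 K
  have hμK1 : μ ^ K ≤ 1 := pow_le_one₀ hμ0 hμ1
  obtain ⟨h1, h2⟩ := hS
  have h3 : (Mk ρ ^ K) b = ((μ ^ K : ℝ) : ℂ) • b := eig_pow ρ b l hl K
  rw [h3, hb] at h1 h2
  have h4 : E ρ (((μ ^ K : ℝ) : ℂ) • b) ≤ 2 * e * 1 ^ 2 := h1
  rw [E_smul, hE, Complex.norm_real, Real.norm_of_nonneg hμK0] at h4
  have h5 : ‖((μ ^ K : ℝ) : ℂ) • b - b‖ ^ 2 ≤ C * E ρ b + 2 * e * 1 ^ 2 := h2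
  have h6 : ‖((μ ^ K : ℝ) : ℂ) • b - b‖ = 1 - μ ^ K := by
    nth_rw 2 [← one_smul ℂ b]
    rw [← sub_smul, norm_smul, hb, mul_one, ← Complex.ofReal_one, ← Complex.ofReal_sub,
      Complex.norm_real, Real.norm_eq_abs, abs_sub_comm, abs_of_nonneg (by linarith)]
  rw [h6, hE] at h5
  have h7 : C * l ≤ 1 / 8 := by
    have hC0 : 0 < C := by linarith
    rw [lt_div_iff₀ (by positivity)] at hlc
    linarith
  have h8 : (1 - μ ^ K) ^ 2 ≤ (1 / 2) ^ 2 := by linarith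
  have h9 : 1 - μ ^ K ≤ 1 / 2 :=
    (pow_le_pow_iff_left₀ (by linarith) (by norm_num) two_ne_zero).1 h8
  have h10 : 1 / 4 ≤ (μ ^ K) ^ 2 := by nlinarith
  nlinarith

end basics

theorem t_GAP (hB : PtbP) (hC : PtcP) : S_GAP := by
  intro G _ k γ hT hγ
  obtain ⟨C, hC1, hCK⟩ := hB G k γ hT hγ
  have hC0 : 0 < C := by linarith
  have main : ∀ η : ℝ, ∃ δ : ℝ, ∃ R : Finset (FreeGroup (Fin k)), (0 < η → 0 < δ) ∧
      (∀ w ∈ R, γ w = 1) ∧ (0 < η → ∃ K : ℕ, ∀ (H : Type) [NormedAddCommGroup H]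
        [InnerProductSpace ℂ H] [CompleteSpace H]
        (ρ : FreeGroup (Fin k) →* unitary (H →L[ℂ] H)) (ξ : H),
        (∀ w ∈ R, ‖(ρ w : H →L[ℂ] H) ξ - ξ‖ ≤ δ * ‖ξ‖) →
          Smo ρ K C (2 * min (η / 8) (1 / 16)) ξ) := by
    intro η
    by_cases hη : 0 < η
    · have he : 0 < min (η / 8) (1 / 16) := lt_min (by positivity) (by norm_num)
      obtain ⟨K, hK⟩ := hCK _ he
      obtain ⟨δ, hδ, R, hR, hS⟩ := hC k γ.ker K C _ he (fun H _ _ _ ρ hρ ξ =>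
        hK H ρ (fun w hw => hρ w (by rwa [MonoidHom.mem_ker])) ξ)
      exact ⟨δ, R, fun _ => hδ, fun w hw => by have := hR w hw; rwa [MonoidHom.mem_ker] at this,
        fun _ => ⟨K, hS⟩⟩
    · exact ⟨1, ∅, fun h => absurd h hη, by simp, fun h => absurd h hη⟩
  choose δ R h1 h2 h3 using main
  refine ⟨1 / (8 * C), by positivity, δ, R, h1, h2, ?_⟩
  intro H _ _ _ _ ρ
  set hS := La_symm ρ
  set n := Module.finrank ℂ H with hn
  set b := hS.eigenvectorBasis hn.symm with hb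
  set l : Fin n → ℝ := hS.eigenvalues hn.symm with hl
  have hbl : ∀ i, La ρ (b i) = (l i : ℂ) • b i := fun i => hS.apply_eigenvectorBasis hn.symm i
  have hEs : ∀ v, E ρ v = ∑ i, l i * ‖inner ℂ (b i) v‖ ^ 2 := by
    intro v
    have e1 : inner ℂ (La ρ v) v = ∑ i, inner ℂ (La ρ v) (b i) * inner ℂ (b i) v :=
      (b.sum_inner_mul_inner (La ρ v) v).symm
    rw [E_eq, e1, Complex.re_sum]
    refine Finset.sum_congr rfl fun i _ => ?_
    have e2 : inner ℂ (La ρ v) (b i) = (l i : ℂ) * inner ℂ v (b i) := by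
      have : inner ℂ (La ρ v) (b i) = inner ℂ v (La ρ (b i)) := hS v (b i)
      rw [this, hbl, inner_smul_right]
    rw [e2, mul_assoc, ← inner_conj_symm v (b i), Complex.conj_mul', ← Complex.ofReal_pow,
      ← Complex.ofReal_mul, Complex.ofReal_re]
  have hnorm : ∀ v : H, ∑ i, ‖inner ℂ (b i) v‖ ^ 2 = ‖v‖ ^ 2 := fun v =>
    b.sum_sq_norm_inner_right v
  have hb1 : ∀ i, ‖b i‖ = 1 := fun i => b.norm_eq_one i
  have hl0 : ∀ i, 0 ≤ l i := fun i => by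
    rw [← eig ρ (b i) (hb1 i) (l i) (hbl i)]
    exact E_nonneg ρ _
  classical
  set I : Finset (Fin n) := Finset.univ.filter (fun i => l i < 1 / (8 * C)) with hI
  set V : Submodule ℂ H := Submodule.span ℂ (b '' (I : Set (Fin n))) with hV
  refine ⟨V, ?_, ?_⟩
  · intro v
    set x : H := ∑ i ∈ I, (inner ℂ (b i) v : ℂ) • b i with hx
    have hxV : x ∈ V := Submodule.sum_mem _ fun i hi =>
      Submodule.smul_mem _ _ (Submodule.subset_span ⟨i, hi, rfl⟩)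
    have e1 : v - V.starProjection v = Vᗮ.starProjection (v - x) := by
      rw [Submodule.starProjection_orthogonal_val, map_sub,
        Submodule.starProjection_eq_self_iff.2 hxV]
      abel
    have e2 : ‖v - V.starProjection v‖ ≤ ‖v - x‖ := by
      rw [e1]
      exact Submodule.norm_starProjection_apply_le _ _
    have e3 : ∀ i, inner ℂ (b i) (v - x) = if i ∈ I then 0 else inner ℂ (b i) v := by
      intro i
      rw [inner_sub_right, hx, inner_sum]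
      have : ∀ j ∈ I, inner ℂ (b i) ((inner ℂ (b j) v : ℂ) • b j) =
          if j = i then inner ℂ (b i) v else 0 := by
        intro j _
        rw [inner_smul_right, b.inner_eq_ite]
        split_ifs with h1 h2 h2
        · rw [h1, mul_one]
        · exact absurd h1.symm h2
        · exact absurd h2.symm h1
        · rw [mul_zero]
      rw [Finset.sum_congr rfl this, Finset.sum_ite_eq']
      split_ifs <;> simp
    have e4 : ‖v - x‖ ^ 2 = ∑ i ∈ Finset.univ.filter (fun i => i ∉ I), ‖inner ℂ (b i) v‖ ^ 2 := by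
      rw [← hnorm (v - x), Finset.sum_filter]
      refine Finset.sum_congr rfl fun i _ => ?_
      rw [e3 i]
      by_cases hi : i ∈ I
      · rw [if_pos hi, if_neg (not_not.2 hi)]; simp
      · rw [if_neg hi, if_pos hi]
    have e5 : ‖v - V.starProjection v‖ ^ 2 ≤ ‖v - x‖ ^ 2 := pow_le_pow_left₀ (norm_nonneg _) e2 2
    calc 1 / (8 * C) * ‖v - V.starProjection v‖ ^ 2 ≤ 1 / (8 * C) * ‖v - x‖ ^ 2 :=
          mul_le_mul_of_nonneg_left e5 (by positivity)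
      _ = ∑ i ∈ Finset.univ.filter (fun i => i ∉ I), 1 / (8 * C) * ‖inner ℂ (b i) v‖ ^ 2 := by
          rw [e4, Finset.mul_sum]
      _ ≤ ∑ i ∈ Finset.univ.filter (fun i => i ∉ I), l i * ‖inner ℂ (b i) v‖ ^ 2 := by
          refine Finset.sum_le_sum fun i hi => mul_le_mul_of_nonneg_right ?_ (sq_nonneg _)
          have h := (Finset.mem_filter.1 hi).2
          rw [hI, Finset.mem_filter, not_and] at h
          exact not_lt.1 (h (Finset.mem_univ i))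
      _ ≤ ∑ i, l i * ‖inner ℂ (b i) v‖ ^ 2 :=
          Finset.sum_le_sum_of_subset_of_nonneg (Finset.filter_subset _ _)
            fun i _ _ => mul_nonneg (hl0 i) (sq_nonneg _)
      _ = E ρ v := (hEs v).symm
  · intro η hη hR v hv
    obtain ⟨K, hK⟩ := h3 η hη
    have hsm : ∀ i ∈ I, l i ≤ η := by
      intro i hi
      have hli : l i < 1 / (8 * C) := (Finset.mem_filter.1 hi).2
      have h4 := small ρ (b i) (hb1 i) (l i) (hbl i) C hC1 hli K (min (η / 8) (1 / 16))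
        (min_le_right _ _) (hK H ρ (b i) fun w hw => hR w hw (b i))
      have h5 : min (η / 8) (1 / 16) ≤ η / 8 := min_le_left _ _
      linarith
    have horth : ∀ i, i ∉ I → inner ℂ (b i) v = 0 := by
      intro i hi
      have : V ≤ (ℂ ∙ b i)ᗮ := by
        rw [hV, Submodule.span_le]
        rintro _ ⟨j, hj, rfl⟩
        rw [SetLike.mem_coe, Submodule.mem_orthogonal_singleton_iff_inner_right]
        exact b.inner_eq_zero (fun h => hi (h ▸ hj))
      exact Submodule.mem_orthogonal_singleton_iff_inner_right.1 (this hv)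
    rw [hEs v, ← hnorm v, Finset.mul_sum]
    refine Finset.sum_le_sum fun i _ => ?_
    by_cases hi : i ∈ I
    · exact mul_le_mul_of_nonneg_right (hsm i hi) (sq_nonneg _)
    · rw [horth i hi]
      simp

end

end Pool.Agent.N306.MS
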